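import Pool.Agent.Helper20.EQ.St1

/-!
# Project EQ (MP_cb927e_an): module WT (the window scale of a slope)
-/

set_option autoImplicit false

open MeasureTheory Set Filter Topology
open scoped ENNReal RealInnerProductSpace

namespace Pool.Agent.Helper89.EQ

open Pool.Agent.Helper68.LM (Pl BB Bd Av HL ft fm DQ)
open Pool.Agent.Helper20.RG
open Pool.Agent.Helper20.EQ
open Pool.Agent.Helper68.EP (elt GapP StGPG)

private lemma nn_anti_WT (hCN : StCN) {φ τ : ℝ → ℝ} (hG : Graph φ τ) (u : ℕ) (θ : ℝ) :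
    Antitone (nn τ u θ) :=
  antitone_nat_of_succ_le fun i => (hCN φ τ hG u i θ).2.2.2.2.2.1

private lemma elt_anti_WT (hCN : StCN) {φ τ : ℝ → ℝ} (hG : Graph φ τ) (θ : ℝ) :
    Antitone (elt τ θ) :=
  antitone_nat_of_succ_le fun i => (hCN φ τ hG 0 i θ).2.2.2.2.1

private lemma bdd_WT (hCN : StCN) {φ τ : ℝ → ℝ} (hG : Graph φ τ) {A p : ℝ} (hp : 1 < p)
    (hGP : GapP A p τ) (u : ℕ) {Y : ℝ} (hY : 2 ≤ Y) (θ : ℝ) :
    BddAbove {W : ℕ | Y ≤ (nn τ u θ W : ℝ)} := by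
  refine ⟨⌈A * ((2 : ℝ) ^ u) ^ p⌉₊, ?_⟩
  intro W hW
  have hW' : Y ≤ (nn τ u θ W : ℝ) := hW
  have h1 := (hCN φ τ hG u W θ).1
  have h0 : 0 ≤ elt τ θ W := (hCN φ τ hG u W θ).2.2.1
  have h2 : 1 ≤ (2 : ℝ) ^ u * elt τ θ W := by linarith
  have h3 : (W : ℝ) * elt τ θ W ^ p ≤ A := by
    calc (W : ℝ) * elt τ θ W ^ p = ∑ i ∈ Finset.range W, elt τ θ W ^ p := by simp
      _ ≤ ∑ i ∈ Finset.range W, elt τ θ (i + 1) ^ p := by
        apply Finset.sum_le_sum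
        intro i hi
        rw [Finset.mem_range] at hi
        exact Real.rpow_le_rpow h0 (elt_anti_WT hCN hG θ (by omega)) (by linarith)
      _ ≤ A := hGP θ W
  have h4 : 1 ≤ ((2 : ℝ) ^ u) ^ p * elt τ θ W ^ p := by
    rw [← Real.mul_rpow (by positivity) h0]
    exact Real.one_le_rpow h2 (by linarith)
  have h5 : (W : ℝ) ≤ A * ((2 : ℝ) ^ u) ^ p := by
    have h6 : (W : ℝ) ≤ (W : ℝ) * (((2 : ℝ) ^ u) ^ p * elt τ θ W ^ p) :=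
      le_mul_of_one_le_right (Nat.cast_nonneg _) h4
    have h7 : (0 : ℝ) ≤ ((2 : ℝ) ^ u) ^ p := by positivity
    calc (W : ℝ) ≤ (W : ℝ) * (((2 : ℝ) ^ u) ^ p * elt τ θ W ^ p) := h6
      _ = ((W : ℝ) * elt τ θ W ^ p) * ((2 : ℝ) ^ u) ^ p := by ring
      _ ≤ A * ((2 : ℝ) ^ u) ^ p := mul_le_mul_of_nonneg_right h3 h7
  have h8 := h5.trans (Nat.le_ceil _)
  exact_mod_cast h8

private lemma wt_le_WT (hCN : StCN) {φ τ : ℝ → ℝ} (hG : Graph φ τ) {A p : ℝ} (hp : 1 < p)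
    (hGP : GapP A p τ) (u : ℕ) {Y : ℝ} (hY : 2 ≤ Y) (θ : ℝ) (W : ℕ)
    (hW : Y ≤ (nn τ u θ W : ℝ)) : W ≤ Wt τ u Y θ :=
  le_csSup (bdd_WT hCN hG hp hGP u hY θ) hW

private lemma wt_mem_WT (hCN : StCN) {φ τ : ℝ → ℝ} (hG : Graph φ τ) {A p : ℝ} (hp : 1 < p)
    (hGP : GapP A p τ) (u : ℕ) {Y : ℝ} (hY : 2 ≤ Y) (θ : ℝ) (h : 1 ≤ Wt τ u Y θ) :
    Y ≤ (nn τ u θ (Wt τ u Y θ) : ℝ) := by
  have hne : {W : ℕ | Y ≤ (nn τ u θ W : ℝ)}.Nonempty := by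
    by_contra hcon
    rw [Set.not_nonempty_iff_eq_empty] at hcon
    have : Wt τ u Y θ = 0 := by
      unfold Wt
      rw [hcon]
      exact csSup_empty
    omega
  exact Nat.sSup_mem hne (bdd_WT hCN hG hp hGP u hY θ)

/-- the half of the last claim: the slopes on one side of `θ` -/
private lemma side_WT (hCN : StCN) {φ τ : ℝ → ℝ} (hG : Graph φ τ) {A p : ℝ} (hp : 1 < p)
    (hGP : GapP A p τ) (u : ℕ) {Y : ℝ} (hY : 2 ≤ Y) (θ ε : ℝ) (hε : ε = 1 ∨ ε = -1) :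
    ({a : ℕ | a < 2 ^ u ∧ 0 ≤ ε * (sl τ u a - θ) ∧ |sl τ u a - θ| ≤
      (2 : ℝ) ^ (-((Wt τ u Y (sl τ u a) + 1 : ℕ) : ℤ))}.ncard : ℝ) ≤ Y := by
  set B : Set ℕ := {a : ℕ | a < 2 ^ u ∧ 0 ≤ ε * (sl τ u a - θ) ∧ |sl τ u a - θ| ≤
      (2 : ℝ) ^ (-((Wt τ u Y (sl τ u a) + 1 : ℕ) : ℤ))} with hB
  have hfin : B.Finite := (Set.finite_lt_nat (2 ^ u)).subset fun a ha => ha.1
  rcases B.eq_empty_or_nonempty with hem | hne
  · rw [hem]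
    simp only [Set.ncard_empty, Nat.cast_zero]
    linarith
  obtain ⟨b, hb, hmax⟩ := Set.exists_max_image B (fun a => ε * (sl τ u a - θ)) hfin hne
  have hb' : ¬ Y ≤ (nn τ u (sl τ u b) (Wt τ u Y (sl τ u b) + 1) : ℝ) := by
    intro hc
    have := wt_le_WT hCN hG hp hGP u hY (sl τ u b) _ hc
    omega
  have hsub : B ⊆ {j : ℕ | j < 2 ^ u ∧ |sl τ u j - sl τ u b| ≤
      (2 : ℝ) ^ (-((Wt τ u Y (sl τ u b) + 1 : ℕ) : ℤ))} := by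
    intro a ha
    refine ⟨ha.1, ?_⟩
    have h1 := hmax a ha
    have h2 := ha.2.1
    have h3 := hb.2.2
    have h4 := hb.2.1
    refine le_trans ?_ h3
    rcases hε with rfl | rfl
    · rw [abs_of_nonneg (show 0 ≤ sl τ u b - θ by linarith), abs_le]
      constructor <;> linarith
    · rw [abs_of_nonpos (show sl τ u b - θ ≤ 0 by linarith), abs_le]
      constructor <;> linarith
  have hle : B.ncard ≤ nn τ u (sl τ u b) (Wt τ u Y (sl τ u b) + 1) :=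
    Set.ncard_le_ncard hsub ((Set.finite_lt_nat (2 ^ u)).subset fun a ha => ha.1)
  have hle' : (B.ncard : ℝ) ≤ (nn τ u (sl τ u b) (Wt τ u Y (sl τ u b) + 1) : ℝ) := by
    exact_mod_cast hle
  linarith [not_le.mp hb']

theorem hWT (hCN : StCN) (hCQ : StCQ) (hGPG : StGPG) : StWT := by
  intro φ τ A p hG hA hGP hp u Y θ hu hY
  refine ⟨?_, ?_, ?_, ?_, ?_, ?_⟩
  · exact wt_le_WT hCN hG hp hGP u hY θ
  · exact wt_mem_WT hCN hG hp hGP u hY θ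
  · intro T θ' hT hθ
    by_contra hcon
    push Not at hcon
    have h1 : Y ≤ (nn τ u θ' (Wt τ u Y θ') : ℝ) :=
      wt_mem_WT hCN hG hp hGP u hY θ' (by omega)
    have h2 : nn τ u θ' (Wt τ u Y θ') ≤ nn τ u θ' (Wt τ u Y θ + 2) :=
      nn_anti_WT hCN hG u θ' (by omega)
    have h3 : |θ' - θ| ≤ (2 : ℝ) ^ (-((Wt τ u Y θ + 1 + 1 : ℕ) : ℤ)) := by
      rw [abs_sub_comm]
      refine hθ.trans (zpow_le_zpow_right₀ (by norm_num) ?_)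
      push_cast
      omega
    have h4 : nn τ u θ' (Wt τ u Y θ + 1 + 1) ≤ nn τ u θ (Wt τ u Y θ + 1) :=
      ((hCN φ τ hG u (Wt τ u Y θ + 1) θ').2.2.2.2.2.2 θ h3).2
    have h5 : Y ≤ (nn τ u θ (Wt τ u Y θ + 1) : ℝ) := by
      refine h1.trans ?_
      exact_mod_cast h2.trans h4
    have := wt_le_WT hCN hG hp hGP u hY θ _ h5
    omega
  · intro i hi1 hi
    have h1 : Y ≤ (nn τ u θ (Wt τ u Y θ) : ℝ) := wt_mem_WT hCN hG hp hGP u hY θ (by omega)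
    have h2 : nn τ u θ (Wt τ u Y θ) ≤ nn τ u θ i := nn_anti_WT hCN hG u θ hi
    have h2' : (nn τ u θ (Wt τ u Y θ) : ℝ) ≤ (nn τ u θ i : ℝ) := by exact_mod_cast h2
    have h3 := (hCN φ τ hG u i θ).1
    linarith
  · intro j hj
    by_cases h : mm τ u j ≤ u
    · omega
    · push Not at h
      have hgap : Gap (A ^ (1 / p)) p τ := hGPG τ A p hA (by linarith) hGP
      have h1 := ((hCQ φ τ (A ^ (1 / p)) p 0 hG hgap (Real.rpow_pos_of_pos hA _) (by linarith) u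
        hu).1 j hj).1 (mm τ u j - u) (by omega)
      have h2 : (2 : ℝ) ≤ (nn τ u (sl τ u j) (mm τ u j - u) : ℝ) := by exact_mod_cast h1.2
      have := wt_le_WT hCN hG hp hGP u (le_refl 2) (sl τ u j) _ h2
      omega
  · have hcov : {a : ℕ | a < 2 ^ u ∧ |sl τ u a - θ| ≤
        (2 : ℝ) ^ (-((Wt τ u Y (sl τ u a) + 1 : ℕ) : ℤ))} ⊆
        {a : ℕ | a < 2 ^ u ∧ 0 ≤ 1 * (sl τ u a - θ) ∧ |sl τ u a - θ| ≤
          (2 : ℝ) ^ (-((Wt τ u Y (sl τ u a) + 1 : ℕ) : ℤ))} ∪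
        {a : ℕ | a < 2 ^ u ∧ 0 ≤ (-1) * (sl τ u a - θ) ∧ |sl τ u a - θ| ≤
          (2 : ℝ) ^ (-((Wt τ u Y (sl τ u a) + 1 : ℕ) : ℤ))} := by
      intro a ha
      rcases le_total θ (sl τ u a) with h | h
      · exact Or.inl ⟨ha.1, by linarith, ha.2⟩
      · exact Or.inr ⟨ha.1, by linarith, ha.2⟩
    have h1 := side_WT hCN hG hp hGP u hY θ 1 (Or.inl rfl)
    have h2 := side_WT hCN hG hp hGP u hY θ (-1) (Or.inr rfl)
    have hfin : ({a : ℕ | a < 2 ^ u ∧ 0 ≤ 1 * (sl τ u a - θ) ∧ |sl τ u a - θ| ≤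
          (2 : ℝ) ^ (-((Wt τ u Y (sl τ u a) + 1 : ℕ) : ℤ))} ∪
        {a : ℕ | a < 2 ^ u ∧ 0 ≤ (-1) * (sl τ u a - θ) ∧ |sl τ u a - θ| ≤
          (2 : ℝ) ^ (-((Wt τ u Y (sl τ u a) + 1 : ℕ) : ℤ))}).Finite := by
      refine (Set.finite_lt_nat (2 ^ u)).subset ?_
      rintro a (ha | ha) <;> exact ha.1
    have h3 := (Set.ncard_le_ncard hcov hfin).trans (Set.ncard_union_le _ _)
    have h4 : ({a : ℕ | a < 2 ^ u ∧ |sl τ u a - θ| ≤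
        (2 : ℝ) ^ (-((Wt τ u Y (sl τ u a) + 1 : ℕ) : ℤ))}.ncard : ℝ) ≤
        ({a : ℕ | a < 2 ^ u ∧ 0 ≤ 1 * (sl τ u a - θ) ∧ |sl τ u a - θ| ≤
          (2 : ℝ) ^ (-((Wt τ u Y (sl τ u a) + 1 : ℕ) : ℤ))}.ncard : ℝ) +
        ({a : ℕ | a < 2 ^ u ∧ 0 ≤ (-1) * (sl τ u a - θ) ∧ |sl τ u a - θ| ≤
          (2 : ℝ) ^ (-((Wt τ u Y (sl τ u a) + 1 : ℕ) : ℤ))}.ncard : ℝ) := by
      exact_mod_cast h3
    linarith

end Pool.Agent.Helper89.EQ
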